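import Mathlib
open Complex Filter Topology
open scoped Real

namespace Pool.Agent.Lib.MP_54f1ce_nt

lemma summable_gauss {a : ℂ} (ha : 0 < a.re) (b : ℂ) :
    Summable (fun n : ℤ => cexp (-π * a * n ^ 2 + 2 * π * b * n)) := by
  have h := (summable_jacobiTheta₂_term_iff (b / I) (I * a)).mpr (by simpa using ha)
  refine h.congr fun n => ?_
  rw [jacobiTheta₂_term]
  congr 1
  have hI : (I : ℂ) ≠ 0 := I_ne_zero
  field_simp
  ring_nf
  simp only [I_sq]
  ring

lemma re_mul_natsq {a : ℂ} (N : ℕ) : (a * (N : ℂ) ^ 2).re = a.re * (N : ℝ) ^ 2 := by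
  rw [← ofReal_natCast, ← ofReal_pow, re_mul_ofReal]

lemma theta_residue {a : ℂ} (ha : 0 < a.re) (N : ℕ) (hN : 0 < N) (r : ℂ) :
    ∑' m : ℤ, cexp (-π * a * (N * m + r) ^ 2) =
      1 / (a * N ^ 2) ^ (1 / 2 : ℂ) *
        ∑' n : ℤ, cexp (-π / (a * N ^ 2) * n ^ 2 + 2 * π * I * n * r / N) := by
  have hN' : (N : ℂ) ≠ 0 := by exact_mod_cast hN.ne'
  have ha0 : a ≠ 0 := by rintro rfl; simp at ha
  have ha' : 0 < (a * N ^ 2).re := by
    rw [re_mul_natsq]; positivity
  have h := Complex.tsum_exp_neg_quadratic ha' (-a * N * r)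
  have e1 : ∀ m : ℤ, cexp (-π * (a * N ^ 2) * m ^ 2 + 2 * π * (-a * N * r) * m) =
      cexp (π * a * r ^ 2) * cexp (-π * a * (N * m + r) ^ 2 ) := by
    intro m
    rw [← Complex.exp_add]
    congr 1
    ring
  have e2 : ∀ n : ℤ, cexp (-π / (a * N ^ 2) * (n + I * (-a * N * r)) ^ 2) =
      cexp (π * a * r ^ 2) * cexp (-π / (a * N ^ 2) * n ^ 2 + 2 * π * I * n * r / N) := by
    intro m
    rw [← Complex.exp_add]
    congr 1
    field_simp
    ring_nf
    simp only [I_sq]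
    ring
  simp_rw [e1, e2] at h
  rw [tsum_mul_left, tsum_mul_left] at h
  have h0 : cexp (π * a * r ^ 2) ≠ 0 := Complex.exp_ne_zero _
  apply mul_left_cancel₀ h0
  rw [h]
  ring

lemma tendsto_dual {l : Filter ℝ} {a : ℝ → ℂ} (ha : Tendsto (fun t => ((a t)⁻¹).re) l atTop)
    (N : ℕ) (hN : 0 < N) (r : ℝ) :
    Tendsto (fun t => ∑' n : ℤ, cexp (-π / (a t * N ^ 2) * n ^ 2 + 2 * π * I * n * r / N)) l
      (𝓝 1) := by
  have hN' : (0 : ℝ) < N := by exact_mod_cast hN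
  have hnorm : ∀ t, ∀ n : ℤ, ‖cexp (-π / (a t * N ^ 2) * n ^ 2 + 2 * π * I * n * r / N)‖ =
      Real.exp (-π * ((a t)⁻¹).re / N ^ 2 * n ^ 2) := by
    intro t n
    rw [Complex.norm_exp]
    congr 1
    have e1 : (-π / (a t * N ^ 2) * n ^ 2 + 2 * π * I * n * r / N : ℂ) =
      (a t)⁻¹ * ((-π / N ^ 2 * n ^ 2 : ℝ) : ℂ) + ((2 * π * n * r / N : ℝ) : ℂ) * I := by
      push_cast
      rw [div_eq_mul_inv, mul_inv]
      ring
    rw [e1, add_re, re_mul_ofReal, re_ofReal_mul, I_re]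
    ring
  have hsum : (∑' n : ℤ, if n = 0 then (1 : ℂ) else 0) = 1 := tsum_ite_eq 0 _
  rw [← hsum]
  have hbound : Summable (fun n : ℤ => Real.exp (-π * n ^ 2)) := by
    have := (summable_gauss (a := 1) (by simp) 0).norm
    refine this.congr fun n => ?_
    rw [Complex.norm_exp]
    congr 1
    have : (-π * 1 * n ^ 2 + 2 * π * 0 * n : ℂ) = ((-π * n ^ 2 : ℝ) : ℂ) := by
      push_cast; ring
    rw [this, ofReal_re]
  apply tendsto_tsum_of_dominated_convergence hbound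
  · intro n
    by_cases hn : n = 0
    · subst hn
      simp
      exact tendsto_const_nhds
    · rw [if_neg hn, tendsto_zero_iff_norm_tendsto_zero]
      simp_rw [hnorm]
      have hn2 : (0 : ℝ) < (n : ℝ) ^ 2 := by positivity
      have h1 : Tendsto (fun t => -(π * ((a t)⁻¹).re / N ^ 2 * n ^ 2)) l atBot := by
        apply Filter.tendsto_neg_atTop_atBot.comp
        have h2 : Tendsto (fun t => (π / N ^ 2 * n ^ 2) * ((a t)⁻¹).re) l atTop :=
          ha.const_mul_atTop (by positivity)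
        refine h2.congr fun t => ?_
        ring
      refine (Real.tendsto_exp_atBot.comp h1).congr fun t => ?_
      simp only [Function.comp]
      congr 1
      ring
  · filter_upwards [ha.eventually_ge_atTop ((N : ℝ) ^ 2)] with t ht n
    rw [hnorm]
    apply Real.exp_le_exp.mpr
    have h1 : 1 ≤ ((a t)⁻¹).re / N ^ 2 := by
      rw [le_div_iff₀ (by positivity)]; linarith
    have h2 : (0 : ℝ) ≤ π * n ^ 2 := by positivity
    have := mul_le_mul_of_nonneg_left h1 h2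
    have e : -π * ((a t)⁻¹).re / N ^ 2 * n ^ 2 = -(π * n ^ 2 * (((a t)⁻¹).re / N ^ 2)) := by ring
    rw [e]
    linarith

lemma tsum_periodic {a : ℂ} (ha : 0 < a.re) (N : ℕ) [NeZero N] (w : ℤ → ℂ)
    (hw : ∀ m q : ℤ, w (m + N * q) = w m) :
    ∑' m : ℤ, w m * cexp (-π * a * m ^ 2) =
      ∑ r : Fin N, w r * ∑' m : ℤ, cexp (-π * a * (N * m + (r : ℕ)) ^ 2) := by
  have hN : 0 < N := Nat.pos_of_ne_zero (NeZero.ne N)
  have hbd : ∃ C : ℝ, ∀ m, ‖w m‖ ≤ C := by
    refine ⟨∑ r : Fin N, ‖w r‖, fun m => ?_⟩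
    have h1 : w m = w (m % N) := by
      conv_lhs => rw [← Int.emod_add_mul_ediv m N]
      rw [hw]
    have h2 : 0 ≤ m % N := Int.emod_nonneg _ (by exact_mod_cast hN.ne')
    have h3 : m % N < N := Int.emod_lt_of_pos _ (by exact_mod_cast hN)
    have h4 : (m % N).toNat < N := by omega
    have h5 : w m = w ((⟨(m % N).toNat, h4⟩ : Fin N) : ℕ) := by
      rw [h1]; congr 1; simp only; omega
    rw [h5]
    exact Finset.single_le_sum (f := fun r : Fin N => ‖w r‖) (fun _ _ => norm_nonneg _)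
      (Finset.mem_univ _)
  obtain ⟨C, hC⟩ := hbd
  have hs : Summable (fun m : ℤ => w m * cexp (-π * a * m ^ 2)) := by
    have h1 := ((summable_gauss ha 0).norm.mul_left C)
    apply Summable.of_norm_bounded h1
    intro m
    rw [norm_mul]
    have : (-π * a * m ^ 2 + 2 * π * 0 * m : ℂ) = -π * a * m ^ 2 := by ring
    rw [this]
    exact mul_le_mul_of_nonneg_right (hC m) (norm_nonneg _)
  let e : Fin N × ℤ ≃ ℤ := (Equiv.prodComm _ _).trans (Int.divModEquiv N).symm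
  have he : ∀ r m, e (r, m) = N * m + (r : ℕ) := by
    intro r m
    simp only [e, Equiv.trans_apply, Equiv.prodComm_apply, Prod.swap_prod_mk,
      Int.divModEquiv_symm_apply]
    ring
  rw [← e.tsum_eq]
  have hs' : Summable (fun c : Fin N × ℤ => w (e c) * cexp (-π * a * ((e c : ℤ) : ℂ) ^ 2)) :=
    hs.comp_injective e.injective
  rw [Summable.tsum_prod hs', tsum_fintype]
  apply Finset.sum_congr rfl
  intro r _
  rw [← tsum_mul_left]
  apply tsum_congr
  intro m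
  rw [he, show ((N : ℤ) * m + (r : ℕ)) = (r : ℕ) + N * m by ring, hw]
  push_cast
  congr 3
  ring

lemma tendsto_theta {l : Filter ℝ} {a : ℝ → ℂ} (ha : Tendsto (fun t => ((a t)⁻¹).re) l atTop)
    (N : ℕ) [NeZero N] (w : ℤ → ℂ) (hw : ∀ m q : ℤ, w (m + N * q) = w m) :
    Tendsto (fun t => (a t * N ^ 2) ^ (1 / 2 : ℂ) * ∑' m : ℤ, w m * cexp (-π * a t * m ^ 2)) l
      (𝓝 (∑ r : Fin N, w r)) := by
  have hN : 0 < N := Nat.pos_of_ne_zero (NeZero.ne N)
  have hNC : (N : ℂ) ≠ 0 := by exact_mod_cast hN.ne'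
  have hev : ∀ᶠ t in l, 0 < (a t).re := by
    filter_upwards [ha.eventually_gt_atTop 0] with t ht
    rw [Complex.inv_re] at ht
    by_contra hcon
    have := div_nonpos_of_nonpos_of_nonneg (not_lt.mp hcon) (Complex.normSq_nonneg (a t))
    linarith
  have hlim : Tendsto (fun t => ∑ r : Fin N, w r *
      ∑' n : ℤ, cexp (-π / (a t * N ^ 2) * n ^ 2 + 2 * π * I * n * ((r : ℕ) : ℝ) / N)) l
      (𝓝 (∑ r : Fin N, w r * 1)) := by
    apply tendsto_finsetSum
    intro r _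
    exact (tendsto_dual ha N hN ((r : ℕ) : ℝ)).const_mul (w r)
  simp only [mul_one] at hlim
  refine hlim.congr' ?_
  filter_upwards [hev] with t ht
  rw [tsum_periodic ht N w hw, Finset.mul_sum]
  apply Finset.sum_congr rfl
  intro r _
  have ha0 : a t ≠ 0 := by intro h; rw [h] at ht; simp at ht
  have hne : (a t * N ^ 2) ^ (1 / 2 : ℂ) ≠ 0 := by
    rw [Complex.cpow_ne_zero_iff]
    left
    exact mul_ne_zero ha0 (pow_ne_zero _ hNC)
  rw [theta_residue ht N hN]
  push_cast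
  field_simp


/-- Gauss sum evaluation (Landsberg-Schaar with numerator one). -/
lemma gauss_sum_value (q : ℕ) [NeZero q] :
    ∑ r : Fin q, cexp (2 * π * I * ((r : ℕ) : ℂ) ^ 2 / q) =
      (Real.sqrt q : ℂ) * (1 + (-I) ^ q) * (1 + I) / 2 := by
  have hq : 0 < q := Nat.pos_of_ne_zero (NeZero.ne q)
  have hqR : (0 : ℝ) < q := by exact_mod_cast hq
  have hqC : (q : ℂ) ≠ 0 := by exact_mod_cast hq.ne'
  have hpi : (π : ℂ) ≠ 0 := by exact_mod_cast Real.pi_ne_zero
  let l : Filter ℝ := 𝓝[>] (0 : ℝ)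
  -- first side
  let w1 : ℤ → ℂ := fun m => cexp (2 * π * I * (m : ℂ) ^ 2 / q)
  have hw1 : ∀ m k : ℤ, w1 (m + q * k) = w1 m := by
    intro m k
    simp only [w1]
    rw [show (2 * π * I * ((m + q * k : ℤ) : ℂ) ^ 2 / q) =
      2 * π * I * (m : ℂ) ^ 2 / q + ((2 * m * k + q * k ^ 2 : ℤ) : ℂ) * (2 * π * I) by
        push_cast; field_simp; ring]
    rw [Complex.exp_add, Complex.exp_int_mul_two_pi_mul_I, mul_one]
  have ht1 : Tendsto (fun t : ℝ => (((t : ℂ))⁻¹).re) l atTop := by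
    have : (fun t : ℝ => (((t : ℂ))⁻¹).re) = fun t : ℝ => t⁻¹ := by
      ext t; rw [← ofReal_inv, ofReal_re]
    rw [this]
    exact tendsto_inv_nhdsGT_zero
  have h1 := tendsto_theta ht1 q w1 hw1
  -- second side
  let w2 : ℤ → ℂ := fun m => cexp (-(π * I * q * (m : ℂ) ^ 2 / 2))
  have hw2 : ∀ m k : ℤ, w2 (m + (2 : ℕ) * k) = w2 m := by
    intro m k
    simp only [w2]
    rw [show (-(π * I * q * ((m + (2 : ℕ) * k : ℤ) : ℂ) ^ 2 / 2)) =
      -(π * I * q * (m : ℂ) ^ 2 / 2) + ((-(q * (m * k + k ^ 2)) : ℤ) : ℂ) * (2 * π * I) by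
        push_cast; field_simp; ring]
    rw [Complex.exp_add, Complex.exp_int_mul_two_pi_mul_I, mul_one]
  let A : ℝ → ℂ := fun t => (t : ℂ) - 2 * I / q
  let b : ℝ → ℂ := fun t => (-I * q * t / 2) / A t
  have hA0 : ∀ t : ℝ, 0 < t → A t ≠ 0 := by
    intro t ht h
    have : (A t).re = t := by simp [A]
    rw [h] at this
    simp at this
    linarith
  have ht2 : Tendsto (fun t : ℝ => ((b t)⁻¹).re) l atTop := by
    have h2 : Tendsto (fun t : ℝ => (4 / q ^ 2) * t⁻¹) l atTop :=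
      tendsto_inv_nhdsGT_zero.const_mul_atTop (by positivity)
    refine h2.congr' ?_
    filter_upwards [self_mem_nhdsWithin] with t ht
    have ht' : (0 : ℝ) < t := ht
    have htC : (t : ℂ) ≠ 0 := by exact_mod_cast ht'.ne'
    have : (b t)⁻¹ = ((4 / q ^ 2 * t⁻¹ : ℝ) : ℂ) + ((2 / q : ℝ) : ℂ) * I := by
      simp only [b, A]
      rw [inv_div]
      push_cast
      have hI : (I : ℂ) ≠ 0 := I_ne_zero
      field_simp
      ring_nf
      simp only [I_sq]
      ring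
    rw [this, add_re, ofReal_re, re_ofReal_mul, I_re]
    ring
  have h2 := tendsto_theta ht2 2 w2 hw2
  -- relation
  have hrel : ∀ t : ℝ, 0 < t → ∑' m : ℤ, w1 m * cexp (-π * t * m ^ 2) =
      1 / A t ^ (1 / 2 : ℂ) * ∑' m : ℤ, w2 m * cexp (-π * b t * m ^ 2) := by
    intro t ht
    have hAre : 0 < (A t).re := by simpa [A] using ht
    have h := Complex.tsum_exp_neg_quadratic hAre 0
    have e1 : ∀ m : ℤ, cexp (-π * A t * m ^ 2 + 2 * π * 0 * m) =
        w1 m * cexp (-π * t * m ^ 2) := by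
      intro m
      simp only [w1, A]
      rw [← Complex.exp_add]
      congr 1
      ring
    have e2 : ∀ m : ℤ, cexp (-π / A t * (m + I * 0) ^ 2) =
        w2 m * cexp (-π * b t * m ^ 2) := by
      intro m
      simp only [w2]
      rw [← Complex.exp_add]
      congr 1
      have : b t = 1 / A t - I * q / 2 := by
        simp only [b]
        have hA := hA0 t ht
        rw [eq_sub_iff_add_eq, div_add' _ _ _ hA, div_left_inj' hA]
        simp only [A]
        field_simp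
        ring_nf
        simp only [I_sq]
        ring
      rw [this]
      ring
    simp_rw [e1, e2] at h
    exact h
  -- the limit ratio
  let β : ℝ → ℂ := fun t => (-2 * I * q) / A t
  have hA : Tendsto A l (𝓝 (-2 * I / q)) := by
    have : Tendsto A (𝓝 (0 : ℝ)) (𝓝 (A 0)) := by
      apply Continuous.tendsto
      simp only [A]
      fun_prop
    have h0 : A 0 = -2 * I / q := by simp [A]; ring
    rw [h0] at this
    exact this.mono_left nhdsWithin_le_nhds
  have hneq : (-2 * I / q : ℂ) ≠ 0 := by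
    apply div_ne_zero _ hqC
    simp
  have hβ : Tendsto β l (𝓝 ((q : ℂ) ^ 2)) := by
    have : Tendsto β l (𝓝 ((-2 * I * q) / (-2 * I / q))) := tendsto_const_nhds.div hA hneq
    have e : (-2 * I * q) / (-2 * I / q) = (q : ℂ) ^ 2 := by
      have hI : (I : ℂ) ≠ 0 := I_ne_zero
      field_simp
    rwa [e] at this
  have hAc : Tendsto (fun t => A t ^ (1 / 2 : ℂ)) l (𝓝 ((-2 * I / q) ^ (1 / 2 : ℂ))) := by
    apply hA.cpow tendsto_const_nhds
    right
    have : (-2 * I / q : ℂ).im = -2 / q := by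
      rw [show (-2 * I / q : ℂ) = ((-2 / q : ℝ) : ℂ) * I by push_cast; ring]
      rw [im_ofReal_mul, I_im, mul_one]
    rw [this]
    apply ne_of_lt
    apply div_neg_of_neg_of_pos <;> linarith
  have hβc : Tendsto (fun t => β t ^ (1 / 2 : ℂ)) l (𝓝 (((q : ℂ) ^ 2) ^ (1 / 2 : ℂ))) := by
    apply hβ.cpow tendsto_const_nhds
    left
    have : ((q : ℂ) ^ 2).re = (q : ℝ) ^ 2 := by
      rw [← ofReal_natCast, ← ofReal_pow, ofReal_re]
    rw [this]; positivity
  have hq2 : ((q : ℂ) ^ 2) ^ (1 / 2 : ℂ) = q := by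
    rw [one_div]
    apply Complex.sq_cpow_two_inv
    simpa using hqR
  have hroot : (-2 * I / q : ℂ) ^ (1 / 2 : ℂ) = (1 - I) / (Real.sqrt q : ℂ) := by
    have hs : (Real.sqrt q : ℂ) ≠ 0 := by
      exact_mod_cast (Real.sqrt_pos.mpr hqR).ne'
    have e : (-2 * I / q : ℂ) = ((1 - I) / (Real.sqrt q : ℂ)) ^ 2 := by
      rw [div_pow, ← ofReal_pow, Real.sq_sqrt hqR.le]
      push_cast
      congr 1
      ring_nf
      simp only [I_sq]
      ring
    rw [e, one_div]
    apply Complex.sq_cpow_two_inv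
    rw [show ((1 - I) / (Real.sqrt q : ℂ)) = (1 - I) * ((Real.sqrt q)⁻¹ : ℝ) by push_cast; ring]
    rw [re_mul_ofReal]
    simp
    exact hq
  have hev : ∀ᶠ t : ℝ in l, ((t : ℂ) * q ^ 2) ^ (1 / 2 : ℂ) * ∑' m : ℤ, w1 m * cexp (-π * t * m ^ 2) =
      (q / (A t ^ (1 / 2 : ℂ) * β t ^ (1 / 2 : ℂ))) *
      ((b t * (2 : ℕ) ^ 2) ^ (1 / 2 : ℂ) * ∑' m : ℤ, w2 m * cexp (-π * b t * m ^ 2)) := by
    filter_upwards [self_mem_nhdsWithin] with t ht
    have ht' : (0 : ℝ) < t := ht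
    have htC : (t : ℂ) ≠ 0 := by exact_mod_cast ht'.ne'
    have hAt := hA0 t ht'
    have hβt : β t ≠ 0 := by
      simp only [β]
      apply div_ne_zero _ hAt
      simp [hqC]
    have hmul : ∀ z : ℂ, z ≠ 0 → ((t : ℂ) * z) ^ (1 / 2 : ℂ) =
        (t : ℂ) ^ (1 / 2 : ℂ) * z ^ (1 / 2 : ℂ) := by
      intro z hz
      rw [cpow_def_of_ne_zero (mul_ne_zero htC hz), cpow_def_of_ne_zero htC,
        cpow_def_of_ne_zero hz, Complex.log_ofReal_mul ht' hz, ← Complex.exp_add,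
        Complex.ofReal_log ht'.le]
      congr 1
      ring
    rw [hrel t ht', hmul _ (pow_ne_zero _ hqC), hq2,
      show b t * (2 : ℕ) ^ 2 = (t : ℂ) * β t by simp only [b, β]; push_cast; ring,
      hmul _ hβt]
    have h3 : A t ^ (1 / 2 : ℂ) ≠ 0 := by
      rw [Complex.cpow_ne_zero_iff]; exact Or.inl hAt
    have h4 : β t ^ (1 / 2 : ℂ) ≠ 0 := by
      rw [Complex.cpow_ne_zero_iff]; exact Or.inl hβt
    field_simp
  have hlim2 : Tendsto (fun t => (q / (A t ^ (1 / 2 : ℂ) * β t ^ (1 / 2 : ℂ))) *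
      ((b t * (2 : ℕ) ^ 2) ^ (1 / 2 : ℂ) * ∑' m : ℤ, w2 m * cexp (-π * b t * m ^ 2))) l
      (𝓝 ((q / ((-2 * I / q) ^ (1 / 2 : ℂ) * ((q : ℂ) ^ 2) ^ (1 / 2 : ℂ))) *
        ∑ r : Fin 2, w2 r)) := by
    apply Tendsto.mul _ h2
    apply tendsto_const_nhds.div (hAc.mul hβc)
    rw [hq2]
    apply mul_ne_zero _ hqC
    rw [Complex.cpow_ne_zero_iff]; exact Or.inl hneq
  have hfin := tendsto_nhds_unique (h1.congr' hev) hlim2
  have hw2val : ∑ r : Fin 2, w2 ((r : ℕ) : ℤ) = 1 + (-I) ^ q := by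
    rw [Fin.sum_univ_two]
    simp only [w2, Fin.val_zero, Fin.val_one]
    congr 1
    · simp
    · rw [show (-I) = cexp (-(π * I / 2)) by
        rw [show -(π * I / 2 : ℂ) = -π / 2 * I by ring, Complex.exp_mul_I]
        have : (-π / 2 : ℂ) = ((-(π / 2) : ℝ) : ℂ) := by push_cast; ring
        rw [this, ← ofReal_cos, ← ofReal_sin, Real.cos_neg, Real.sin_neg]
        simp]
      rw [← Complex.exp_nat_mul]
      congr 1
      push_cast
      ring
  rw [hw2val, hq2, hroot] at hfin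
  have hgoal : ∑ r : Fin q, w1 ((r : ℕ) : ℤ) =
      ∑ r : Fin q, cexp (2 * π * I * ((r : ℕ) : ℂ) ^ 2 / q) := by
    apply Finset.sum_congr rfl
    intro r _
    simp [w1]
  rw [← hgoal, hfin]
  have hs : (Real.sqrt q : ℂ) ≠ 0 := by
    exact_mod_cast (Real.sqrt_pos.mpr hqR).ne'
  have h1I : (1 - I : ℂ) ≠ 0 := by
    intro h
    have := congrArg Complex.re h
    simp at this
  have hI2 : (1 - I : ℂ) * (1 + I) = 2 := by ring_nf; simp only [I_sq]; ring
  have hsq : (Real.sqrt q : ℂ) * (Real.sqrt q : ℂ) = q := by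
    rw [← ofReal_mul, Real.mul_self_sqrt hqR.le]; simp
  have e1 : (q : ℂ) / ((1 - I) / (Real.sqrt q : ℂ) * q) = (Real.sqrt q : ℂ) * (1 + I) / 2 := by
    rw [div_eq_iff (mul_ne_zero (div_ne_zero h1I hs) hqC)]
    field_simp
    linear_combination -hI2
  rw [e1]
  ring

end Pool.Agent.Lib.MP_54f1ce_nt
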