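import Mathlib
import Pool.Agent.Lib.MP_54f1ce_nt.LandsbergSchaar
open Complex Filter Topology Finset
open scoped Real

namespace Pool.Agent.Lib.MP_54f1ce_nt

/-- Gauss sum of the Jacobi symbol. -/
noncomputable def gs (d k : ℕ) : ℂ :=
  ∑ x ∈ range d, (jacobiSym x d : ℂ) * cexp (2 * π * I * (x * k / d))

noncomputable def eps (d : ℕ) : ℂ := if d % 4 = 1 then 1 else I

lemma sum_crt (m n : ℕ) (hm : 0 < m) (hn : 0 < n) (h : Nat.Coprime m n) (F : ℕ → ℂ)
    (hF : ∀ x, F (x % (m * n)) = F x) :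
    ∑ x ∈ range (m * n), F x = ∑ a ∈ range m, ∑ b ∈ range n, F (n * a + m * b) := by
  rw [← Finset.sum_product']
  have hinj : Set.InjOn (fun q : ℕ × ℕ => (n * q.1 + m * q.2) % (m * n))
      ((range m ×ˢ range n : Finset (ℕ × ℕ)) : Set (ℕ × ℕ)) := by
    rintro ⟨a, b⟩ h1 ⟨a', b'⟩ h2 h3
    simp only [coe_product, coe_range, Set.mem_prod, Set.mem_Iio] at h1 h2
    have h3' : n * a + m * b ≡ n * a' + m * b' [MOD (m * n)] := h3
    have hma : n * a ≡ n * a' [MOD m] := by
      have h4 := h3'.of_mul_right n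
      have e1 : n * a + m * b ≡ n * a [MOD m] := by simp [Nat.ModEq]
      have e2 : n * a' + m * b' ≡ n * a' [MOD m] := by simp [Nat.ModEq]
      exact e1.symm.trans (h4.trans e2)
    have hnb : m * b ≡ m * b' [MOD n] := by
      have h4 := h3'.of_mul_left m
      have e1 : n * a + m * b ≡ m * b [MOD n] := by simp [Nat.ModEq]
      have e2 : n * a' + m * b' ≡ m * b' [MOD n] := by simp [Nat.ModEq]
      exact e1.symm.trans (h4.trans e2)
    have ha := Nat.ModEq.cancel_left_of_coprime (by simpa using h) hma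
    have hb := Nat.ModEq.cancel_left_of_coprime (by simpa using h.symm) hnb
    rw [Nat.ModEq, Nat.mod_eq_of_lt h1.1, Nat.mod_eq_of_lt h2.1] at ha
    rw [Nat.ModEq, Nat.mod_eq_of_lt h1.2, Nat.mod_eq_of_lt h2.2] at hb
    rw [ha, hb]
  have himg : (range m ×ˢ range n).image (fun q : ℕ × ℕ => (n * q.1 + m * q.2) % (m * n)) =
      range (m * n) := by
    apply Finset.eq_of_subset_of_card_le
    · intro x hx
      obtain ⟨q, _, rfl⟩ := Finset.mem_image.mp hx
      exact mem_range.mpr (Nat.mod_lt _ (by positivity))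
    · rw [Finset.card_image_of_injOn hinj]
      simp
  rw [← himg, Finset.sum_image hinj]
  apply Finset.sum_congr rfl
  intro q _
  exact hF _

lemma gs_mul (m n : ℕ) (hm : 0 < m) (hn : 0 < n) (h : Nat.Coprime m n) (k : ℕ) :
    gs (m * n) k = (jacobiSym n m : ℂ) * (jacobiSym m n : ℂ) * gs m k * gs n k := by
  have hmC : (m : ℂ) ≠ 0 := by exact_mod_cast hm.ne'
  have hnC : (n : ℂ) ≠ 0 := by exact_mod_cast hn.ne'
  have : NeZero m := ⟨hm.ne'⟩
  have : NeZero n := ⟨hn.ne'⟩
  unfold gs
  rw [sum_crt m n hm hn h]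
  · have e : ∀ a b : ℕ, (jacobiSym ((n * a + m * b : ℕ) : ℤ) (m * n) : ℂ) *
        cexp (2 * π * I * (((n * a + m * b : ℕ) : ℂ) * k / ((m * n : ℕ) : ℂ))) =
        (jacobiSym n m : ℂ) * (jacobiSym m n : ℂ) *
        ((jacobiSym a m : ℂ) * cexp (2 * π * I * (a * k / m))) *
        ((jacobiSym b n : ℂ) * cexp (2 * π * I * (b * k / n))) := by
      intro a b
      have e1 : jacobiSym ((n * a + m * b : ℕ) : ℤ) (m * n) =
          jacobiSym n m * jacobiSym a m * (jacobiSym m n * jacobiSym b n) := by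
        rw [jacobiSym.mul_right]
        congr 1
        · rw [jacobiSym.mod_left]
          push_cast
          rw [Int.add_mul_emod_self_left, ← jacobiSym.mod_left, jacobiSym.mul_left]
        · rw [jacobiSym.mod_left, add_comm]
          push_cast
          rw [Int.add_mul_emod_self_left, ← jacobiSym.mod_left, jacobiSym.mul_left]
      have e2 : cexp (2 * π * I * (((n * a + m * b : ℕ) : ℂ) * k / ((m * n : ℕ) : ℂ))) =
          cexp (2 * π * I * (a * k / m)) * cexp (2 * π * I * (b * k / n)) := by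
        rw [← Complex.exp_add]
        congr 1
        push_cast
        field_simp
      rw [e1, e2]
      push_cast
      ring
    simp_rw [e]
    rw [mul_assoc ((jacobiSym n m : ℂ) * (jacobiSym m n : ℂ)), Finset.sum_mul_sum,
      Finset.mul_sum]
    apply Finset.sum_congr rfl
    intro a _
    rw [Finset.mul_sum]
    apply Finset.sum_congr rfl
    intro b _
    ring
  · intro x
    have e1 : jacobiSym ((x % (m * n) : ℕ) : ℤ) (m * n) = jacobiSym (x : ℤ) (m * n) := by
      rw [Int.natCast_mod, ← jacobiSym.mod_left]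
    have e2 : cexp (2 * π * I * (((x % (m * n) : ℕ) : ℂ) * k / ((m * n : ℕ) : ℂ))) =
        cexp (2 * π * I * ((x : ℂ) * k / ((m * n : ℕ) : ℂ))) := by
      have e3 : (x : ℂ) = ((x % (m * n) : ℕ) : ℂ) + ((m * n : ℕ) : ℂ) * ((x / (m * n) : ℕ) : ℂ) := by
        rw [← Nat.cast_mul, ← Nat.cast_add, Nat.mod_add_div]
      rw [e3]
      have hmn : ((m * n : ℕ) : ℂ) ≠ 0 := by push_cast; exact mul_ne_zero hmC hnC
      have e4 : 2 * π * I * ((((x % (m * n) : ℕ) : ℂ) +
          ((m * n : ℕ) : ℂ) * ((x / (m * n) : ℕ) : ℂ)) * k / ((m * n : ℕ) : ℂ)) =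
          2 * π * I * (((x % (m * n) : ℕ) : ℂ) * k / ((m * n : ℕ) : ℂ)) +
          ((x / (m * n) * k : ℕ) : ℂ) * (2 * π * I) := by
        field_simp
        push_cast
        ring
      rw [e4, Complex.exp_add, Complex.exp_nat_mul_two_pi_mul_I, mul_one]
    rw [e1, e2]


lemma sum_range_eq_zmod (p : ℕ) [NeZero p] (F : ℕ → ℂ) :
    ∑ x ∈ range p, F x = ∑ x : ZMod p, F x.val := by
  have hp : p ≠ 0 := NeZero.ne p
  rw [← Fin.sum_univ_eq_sum_range]
  rcases p with _ | p
  · exact absurd rfl hp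
  · rfl

lemma exp_eq_stdAddChar (p : ℕ) [NeZero p] (x k : ℕ) :
    cexp (2 * π * I * ((x : ℂ) * k / p)) = ZMod.stdAddChar ((x : ZMod p) * (k : ZMod p)) := by
  have h := ZMod.stdAddChar_coe (N := p) ((x * k : ℕ) : ℤ)
  have e : (((x * k : ℕ) : ℤ) : ZMod p) = (x : ZMod p) * (k : ZMod p) := by push_cast; rfl
  rw [e] at h
  rw [h]
  congr 1
  push_cast
  ring

lemma gs_prime_one (p : ℕ) [hp : Fact p.Prime] (hodd : p ≠ 2) :
    gs p 1 = (Real.sqrt p : ℂ) * (1 + (-I) ^ p) * (1 + I) / 2 := by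
  have : NeZero p := ⟨hp.out.ne_zero⟩
  rw [← gauss_sum_value p]
  have h1 : gs p 1 = ∑ x : ZMod p, ((quadraticChar (ZMod p) x : ℤ) : ℂ) * ZMod.stdAddChar x := by
    unfold gs
    rw [sum_range_eq_zmod]
    apply Finset.sum_congr rfl
    intro x _
    rw [exp_eq_stdAddChar p x.val 1, ← jacobiSym.legendreSym.to_jacobiSym, legendreSym]
    simp
  have h2 : ∑ r : Fin p, cexp (2 * π * I * ((r : ℕ) : ℂ) ^ 2 / p) =
      ∑ y : ZMod p, ZMod.stdAddChar (y ^ 2) := by
    rw [Fin.sum_univ_eq_sum_range (fun r => cexp (2 * π * I * (r : ℂ) ^ 2 / p)) p,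
      sum_range_eq_zmod]
    apply Finset.sum_congr rfl
    intro x _
    have := exp_eq_stdAddChar p x.val x.val
    simp only [ZMod.natCast_val, ZMod.cast_id', id_eq] at this
    rw [sq x, ← this]
    congr 1
    simp only [ZMod.natCast_val]
    ring
  have h3 : ∑ y : ZMod p, (ZMod.stdAddChar (y ^ 2) : ℂ) =
      ∑ x : ZMod p, (((quadraticChar (ZMod p) x : ℤ) : ℂ) + 1) * ZMod.stdAddChar x := by
    rw [← Finset.sum_fiberwise_of_maps_to (s := Finset.univ) (t := Finset.univ)
      (g := fun y : ZMod p => y ^ 2) (fun _ _ => Finset.mem_univ _)]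
    apply Finset.sum_congr rfl
    intro x _
    have hcard := quadraticChar_card_sqrts (F := ZMod p) (by rwa [ZMod.ringChar_zmod_n]) x
    have : ∑ y ∈ (Finset.univ : Finset (ZMod p)) with y ^ 2 = x, (ZMod.stdAddChar (y ^ 2) : ℂ) =
        ∑ y ∈ (Finset.univ : Finset (ZMod p)) with y ^ 2 = x, (ZMod.stdAddChar x : ℂ) := by
      apply Finset.sum_congr rfl
      intro y hy
      rw [(Finset.mem_filter.mp hy).2]
    rw [this, Finset.sum_const, nsmul_eq_mul]
    congr 1
    have hc : (Finset.univ.filter fun y : ZMod p => y ^ 2 = x) = {y | y ^ 2 = x}.toFinset := by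
      ext y; simp
    rw [hc]
    exact_mod_cast hcard
  rw [h1, h2, h3]
  simp_rw [add_mul, one_mul]
  rw [Finset.sum_add_distrib]
  have h4 : ∑ x : ZMod p, (ZMod.stdAddChar x : ℂ) = 0 := by
    apply AddChar.sum_eq_zero_of_ne_one
    intro h
    have h5 := ZMod.isPrimitive_stdAddChar p
    have : Nontrivial (ZMod p) := ZMod.nontrivial_iff.mpr hp.out.ne_one
    have := h5 (a := 1) one_ne_zero
    apply this
    rw [AddChar.mulShift_one]
    exact h
  rw [h4, add_zero]

lemma gs_prime (p : ℕ) [hp : Fact p.Prime] (hodd : p ≠ 2) (k : ℕ) :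
    gs p k = (jacobiSym k p : ℂ) * gs p 1 := by
  have : NeZero p := ⟨hp.out.ne_zero⟩
  have h1 : ∀ k, gs p k = ∑ x : ZMod p, ((quadraticChar (ZMod p) x : ℤ) : ℂ) *
      ZMod.stdAddChar (x * (k : ZMod p)) := by
    intro k
    unfold gs
    rw [sum_range_eq_zmod]
    apply Finset.sum_congr rfl
    intro x _
    rw [exp_eq_stdAddChar p x.val k, ← jacobiSym.legendreSym.to_jacobiSym, legendreSym]
    simp
  rw [h1, h1, ← jacobiSym.legendreSym.to_jacobiSym, legendreSym]
  simp only [Int.cast_natCast, Nat.cast_one, mul_one]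
  by_cases hk : (k : ZMod p) = 0
  · rw [hk]
    simp only [mul_zero, AddChar.map_zero_eq_one, mul_one, MulChar.map_zero, Int.cast_zero,
      zero_mul]
    have := quadraticChar_sum_zero (F := ZMod p) (by rwa [ZMod.ringChar_zmod_n])
    exact_mod_cast this
  · rw [Finset.mul_sum]
    symm
    apply Fintype.sum_equiv (Equiv.mulRight₀ (k : ZMod p)⁻¹ (inv_ne_zero hk))
    intro x
    show ((quadraticChar (ZMod p) (k : ZMod p) : ℤ) : ℂ) *
      (((quadraticChar (ZMod p) x : ℤ) : ℂ) * ZMod.stdAddChar x) =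
      ((quadraticChar (ZMod p) (x * (k : ZMod p)⁻¹) : ℤ) : ℂ) *
        ZMod.stdAddChar (x * (k : ZMod p)⁻¹ * (k : ZMod p))
    rw [mul_assoc x, inv_mul_cancel₀ hk, mul_one, map_mul]
    have h3 : quadraticChar (ZMod p) (k : ZMod p)⁻¹ = quadraticChar (ZMod p) (k : ZMod p) := by
      have h4 : quadraticChar (ZMod p) (k : ZMod p) * quadraticChar (ZMod p) (k : ZMod p)⁻¹ = 1 := by
        rw [← map_mul, mul_inv_cancel₀ hk, map_one]
      rcases quadraticChar_dichotomy hk with h | h
      · rw [h] at h4 ⊢; linarith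
      · rw [h] at h4 ⊢; linarith
    rw [h3]
    push_cast
    ring

lemma eps_prime (p : ℕ) (hodd : p % 2 = 1) :
    (1 + (-I) ^ p) * (1 + I) / 2 = eps p := by
  rcases (show p % 4 = 1 ∨ p % 4 = 3 by omega) with h | h
  · have : (-I) ^ p = -I := by
      rw [← Nat.div_add_mod p 4, h, pow_add, pow_mul]
      have : (-I) ^ 4 = 1 := by
        rw [show (-I) ^ 4 = (I ^ 2) ^ 2 by ring, I_sq]; norm_num
      rw [this]; simp
    rw [this, eps, if_pos h]
    ring_nf
    simp only [I_sq]
    ring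
  · have : (-I) ^ p = I := by
      rw [← Nat.div_add_mod p 4, h, pow_add, pow_mul]
      have : (-I) ^ 4 = 1 := by
        rw [show (-I) ^ 4 = (I ^ 2) ^ 2 by ring, I_sq]; norm_num
      rw [this, one_pow, one_mul, show (-I) ^ 3 = - (I ^ 2 * I) by ring, I_sq]; ring
    rw [this, eps, if_neg (by omega)]
    ring_nf
    simp only [I_sq]
    ring

theorem gs_eq (d : ℕ) (hodd : d % 2 = 1) (hsq : Squarefree d) (k : ℕ) :
    gs d k = (jacobiSym k d : ℂ) * eps d * (Real.sqrt d : ℂ) := by
  induction d using Nat.strong_induction_on with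
  | _ d ih =>
    by_cases h1 : d = 1
    · subst h1
      simp [gs, eps]
    · have hd0 : 0 < d := by omega
      obtain ⟨p, hp, m, rfl⟩ := Nat.exists_prime_and_dvd h1
      have hm0 : 0 < m := Nat.pos_of_mul_pos_left hd0
      have hp2 : p % 2 = 1 ∧ m % 2 = 1 := by
        have := Nat.odd_mul.mp (Nat.odd_iff.mpr hodd)
        exact ⟨Nat.odd_iff.mp this.1, Nat.odd_iff.mp this.2⟩
      have hcop : Nat.Coprime p m := Nat.coprime_of_squarefree_mul hsq
      have hmsq : Squarefree m := hsq.of_mul_right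
      have hlt : m < p * m := by
        have := hp.two_le
        nlinarith
      have : Fact p.Prime := ⟨hp⟩
      have hpne : p ≠ 2 := by rintro rfl; omega
      have e1 := gs_mul p m hp.pos hm0 hcop k
      rw [ih m hlt hp2.2 hmsq, gs_prime p hpne, gs_prime_one p hpne] at e1
      rw [e1, jacobiSym.mul_right' _ hp.ne_zero hm0.ne']
      have hsqrt : (Real.sqrt ((p * m : ℕ) : ℝ) : ℂ) = (Real.sqrt p : ℂ) * (Real.sqrt m : ℂ) := by
        push_cast
        rw [Real.sqrt_mul (by positivity)]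
        push_cast; rfl
      have hrec : (jacobiSym m p : ℂ) * (jacobiSym p m : ℂ) * (eps p * eps m) = eps (p * m) := by
        have hr := jacobiSym.quadratic_reciprocity (Nat.odd_iff.mpr hp2.1) (Nat.odd_iff.mpr hp2.2)
        have hjj : jacobiSym m p * jacobiSym m p = 1 := by
          rcases jacobiSym.eq_one_or_neg_one (a := (m : ℤ)) (b := p) (by
            rw [Int.gcd_natCast_natCast]; exact hcop.symm) with h | h <;> rw [h] <;> norm_num
        have hprod : jacobiSym m p * jacobiSym p m = (-1) ^ (p / 2 * (m / 2)) := by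
          rw [hr]
          calc _ = (-1) ^ (p / 2 * (m / 2)) * (jacobiSym m p * jacobiSym m p) := by ring
            _ = _ := by rw [hjj, mul_one]
        have hprodC : (jacobiSym m p : ℂ) * (jacobiSym p m : ℂ) = (-1) ^ (p / 2 * (m / 2)) := by
          exact_mod_cast hprod
        rw [hprodC]
        have hmod : (p * m) % 4 = ((p % 4) * (m % 4)) % 4 := Nat.mul_mod _ _ _
        rcases (show p % 4 = 1 ∨ p % 4 = 3 by omega) with h4 | h4 <;>
        rcases (show m % 4 = 1 ∨ m % 4 = 3 by omega) with h5 | h5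
        · have : Even (p / 2 * (m / 2)) := by
            apply Even.mul_right; rw [Nat.even_iff]; omega
          rw [this.neg_one_pow]; simp [eps, h4, h5, hmod]
        · have : Even (p / 2 * (m / 2)) := by
            apply Even.mul_right; rw [Nat.even_iff]; omega
          rw [this.neg_one_pow]; simp [eps, h4, h5, hmod]
        · have : Even (p / 2 * (m / 2)) := by
            apply Even.mul_left; rw [Nat.even_iff]; omega
          rw [this.neg_one_pow]; simp [eps, h4, h5, hmod]
        · have : Odd (p / 2 * (m / 2)) := by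
            apply Odd.mul <;> rw [Nat.odd_iff] <;> omega
          rw [this.neg_one_pow]; simp [eps, h4, h5, hmod]
      rw [hsqrt, ← hrec, ← eps_prime p hp2.1]
      push_cast
      ring

end Pool.Agent.Lib.MP_54f1ce_nt
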