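import Mathlib
import Pool.Agent.Lib.MP_54f1ce_nt.GaussSum
open Complex Filter Topology Finset
open scoped Real

namespace Pool.Agent.Lib.MP_54f1ce_nt

/-- The completely multiplicative function `n ↦ (n/d) n^(-s)`. -/
noncomputable def fs (d : ℕ) (s : ℝ) (hs : s ≠ 0) : ℕ →*₀ ℝ where
  toFun n := (jacobiSym n d : ℝ) * (n : ℝ) ^ (-s)
  map_zero' := by
    rw [Nat.cast_zero, Nat.cast_zero, Real.zero_rpow (neg_ne_zero.mpr hs), mul_zero]
  map_one' := by simp
  map_mul' m n := by
    push_cast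
    rw [jacobiSym.mul_left, Real.mul_rpow (by positivity) (by positivity)]
    push_cast
    ring

lemma abs_jacobi_le (a : ℤ) (d : ℕ) : |(jacobiSym a d : ℝ)| ≤ 1 := by
  rcases jacobiSym.trichotomy a d with h | h | h <;> rw [h] <;> norm_num

lemma norm_fs_le (d : ℕ) (s : ℝ) (hs : s ≠ 0) (n : ℕ) : ‖fs d s hs n‖ ≤ (n : ℝ) ^ (-s) := by
  show ‖(jacobiSym n d : ℝ) * (n : ℝ) ^ (-s)‖ ≤ _
  rw [Real.norm_eq_abs, abs_mul]
  have h1 := abs_jacobi_le n d
  have h2 : 0 ≤ (n : ℝ) ^ (-s) := by positivity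
  rw [abs_of_nonneg h2]
  nlinarith

lemma summable_fs (d : ℕ) (s : ℝ) (hs : 1 < s) : Summable (‖fs d s (by linarith) ·‖) := by
  apply Summable.of_nonneg_of_le (fun _ => norm_nonneg _) (norm_fs_le d s _)
  exact Real.summable_nat_rpow.mpr (by linarith)

lemma tsum_fs_nonneg (d : ℕ) (s : ℝ) (hs : 1 < s) :
    0 ≤ ∑' n : ℕ, (jacobiSym n d : ℝ) * (n : ℝ) ^ (-s) := by
  have h := EulerProduct.eulerProduct_completely_multiplicative_hasProd (summable_fs d s hs)
  have h2 : ∀ S : Finset Nat.Primes, 0 ≤ ∏ p ∈ S, (1 - fs d s (by linarith) (p : ℕ))⁻¹ := by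
    intro S
    apply Finset.prod_nonneg
    intro p _
    apply inv_nonneg.mpr
    have h3 := norm_fs_le d s (by linarith) (p : ℕ)
    have h4 : ((p : ℕ) : ℝ) ^ (-s) ≤ 1 := by
      apply Real.rpow_le_one_of_one_le_of_nonpos
      · exact_mod_cast p.2.one_lt.le
      · linarith
    have h5 := le_abs_self (fs d s (by linarith) (p : ℕ))
    rw [Real.norm_eq_abs] at h3
    linarith
  exact ge_of_tendsto' h h2

/-- comparision of inverse powers -/
lemma rpow_diff_bound {x y s : ℝ} (hx : 1 ≤ x) (hy : 1 ≤ y) (hs : 1 ≤ s) (hs2 : s ≤ 2) :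
    |x ^ (-s) - y ^ (-s)| ≤ 2 * |y - x| / (x * y) := by
  wlog hxy : x ≤ y generalizing x y
  · rw [abs_sub_comm, abs_sub_comm y x, mul_comm x y]
    exact this hy hx (le_of_not_ge hxy)
  have hx0 : 0 < x := by linarith
  have hy0 : 0 < y := by linarith
  have h1 : y ^ (-s) ≤ x ^ (-s) := Real.rpow_le_rpow_of_nonpos hx0 hxy (by linarith)
  rw [abs_of_nonneg (by linarith), abs_of_nonneg (by linarith : 0 ≤ y - x)]
  have h2 : 1 + s * (x / y - 1) ≤ (1 + (x / y - 1)) ^ s := by
    apply one_add_mul_self_le_rpow_one_add _ hs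
    have : 0 ≤ x / y := by positivity
    linarith
  have h3 : (1 + (x / y - 1)) ^ s = x ^ s * y ^ (-s) := by
    rw [show 1 + (x / y - 1) = x / y by ring, Real.div_rpow hx0.le hy0.le, Real.rpow_neg hy0.le]
    rfl
  rw [h3] at h2
  have h4 : x ^ (-s) * x ^ s = 1 := by
    rw [← Real.rpow_add hx0]; simp
  have h5 : 0 < x ^ (-s) := Real.rpow_pos_of_pos hx0 _
  have h6 : x ^ (-s) ≤ x⁻¹ := by
    rw [← Real.rpow_neg_one]
    exact Real.rpow_le_rpow_of_exponent_le hx (by linarith)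
  have h7 : x ^ (-s) - y ^ (-s) ≤ x ^ (-s) * (s * (1 - x / y)) := by
    have := mul_le_mul_of_nonneg_left h2 h5.le
    have e : x ^ (-s) * (x ^ s * y ^ (-s)) = y ^ (-s) := by
      rw [← mul_assoc, h4, one_mul]
    rw [e] at this
    nlinarith
  have h8 : 0 ≤ 1 - x / y := by
    have : x / y ≤ 1 := (div_le_one hy0).mpr hxy
    linarith
  calc x ^ (-s) - y ^ (-s) ≤ x ^ (-s) * (s * (1 - x / y)) := h7
    _ ≤ x⁻¹ * (2 * (1 - x / y)) := by
        apply mul_le_mul h6 _ (by positivity) (by positivity)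
        apply mul_le_mul_of_nonneg_right hs2 h8
    _ = 2 * (y - x) / (x * y) := by field_simp

/-- The limit function. -/
noncomputable def Bs (d j : ℕ) (s : ℝ) : ℝ :=
  ∑' m : ℕ, (((j + d * m : ℕ) : ℝ) ^ (-s) - ((d - j + d * m : ℕ) : ℝ) ^ (-s))

lemma tendsto_Bs (d j : ℕ) (hj : 0 < j) (hjd : j < d) :
    Tendsto (Bs d j) (𝓝[>] 1) (𝓝 (Bs d j 1)) := by
  have hbd : Summable (fun m : ℕ => (2 * d : ℝ) * (1 / ((m : ℝ) + 1) ^ 2)) := by
    apply Summable.mul_left
    have := (summable_nat_add_iff 1).mpr (Real.summable_one_div_nat_pow.mpr (one_lt_two))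
    simpa using this
  apply tendsto_tsum_of_dominated_convergence hbd
  · intro m
    apply Tendsto.sub
    · apply Tendsto.rpow tendsto_const_nhds _ (Or.inl _)
      · exact (continuous_neg.tendsto 1).mono_left nhdsWithin_le_nhds
      · have : 0 < j + d * m := by omega
        exact_mod_cast this.ne'
    · apply Tendsto.rpow tendsto_const_nhds _ (Or.inl _)
      · exact (continuous_neg.tendsto 1).mono_left nhdsWithin_le_nhds
      · have : 0 < d - j + d * m := by omega
        exact_mod_cast this.ne'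
  · have hmem : Set.Ioc (1 : ℝ) 2 ∈ 𝓝[>] (1 : ℝ) := Ioc_mem_nhdsGT (by norm_num)
    filter_upwards [hmem] with s hs m
    have hd1 : 1 ≤ d := by omega
    have hmd : m ≤ d * m := Nat.le_mul_of_pos_left m (by omega)
    have hx : (m : ℝ) + 1 ≤ ((j + d * m : ℕ) : ℝ) := by
      exact_mod_cast (by omega : m + 1 ≤ j + d * m)
    have hy : (m : ℝ) + 1 ≤ ((d - j + d * m : ℕ) : ℝ) := by
      exact_mod_cast (by omega : m + 1 ≤ d - j + d * m)
    have hm0 : (0 : ℝ) ≤ m := Nat.cast_nonneg m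
    have h := rpow_diff_bound (by linarith : (1 : ℝ) ≤ ((j + d * m : ℕ) : ℝ))
      (by linarith : (1 : ℝ) ≤ ((d - j + d * m : ℕ) : ℝ)) hs.1.le hs.2
    rw [Real.norm_eq_abs]
    refine h.trans ?_
    have h1 : |((d - j + d * m : ℕ) : ℝ) - ((j + d * m : ℕ) : ℝ)| ≤ d := by
      push_cast [Nat.cast_sub hjd.le]
      have : (j : ℝ) < d := by exact_mod_cast hjd
      have : (0 : ℝ) < j := by exact_mod_cast hj
      rw [abs_le]; constructor <;> linarith
    have h2 : ((m : ℝ) + 1) ^ 2 ≤ ((j + d * m : ℕ) : ℝ) * ((d - j + d * m : ℕ) : ℝ) := by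
      nlinarith
    have h3 : (0 : ℝ) < ((m : ℝ) + 1) ^ 2 := by positivity
    calc _ ≤ 2 * d / (((j + d * m : ℕ) : ℝ) * ((d - j + d * m : ℕ) : ℝ)) := by
          apply div_le_div_of_nonneg_right _ (by positivity)
          linarith
      _ ≤ 2 * d / ((m : ℝ) + 1) ^ 2 := by
          apply div_le_div_of_nonneg_left (by positivity) h3 h2
      _ = _ := by ring


lemma jacobi_sub' {d n : ℕ} (h4 : d % 4 = 3) (hn : n ≤ d) :
    jacobiSym ((d - n : ℕ) : ℤ) d = - jacobiSym n d := by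
  have hodd : d % 2 = 1 := by omega
  have h1 : (((d - n : ℕ) : ℤ)) % d = (-(n : ℤ)) % d := by
    rw [Nat.cast_sub hn, show ((d : ℤ) - n) = -(n : ℤ) + d * 1 by ring, Int.add_mul_emod_self_left]
  rw [jacobiSym.mod_left, h1, ← jacobiSym.mod_left, jacobiSym.neg _ (Nat.odd_iff.mpr hodd),
    ZMod.χ₄_nat_three_mod_four h4]
  ring

lemma jacobi_zero {d : ℕ} (hd : 1 < d) : jacobiSym ((0 : ℕ) : ℤ) d = 0 := by
  rw [Nat.cast_zero]; exact jacobiSym.zero_left hd

lemma jacobi_add_mul {d : ℕ} (j m : ℕ) :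
    jacobiSym ((j + d * m : ℕ) : ℤ) d = jacobiSym (j : ℤ) d := by
  rw [jacobiSym.mod_left]
  push_cast
  rw [Int.add_mul_emod_self_left, ← jacobiSym.mod_left]

lemma sum_reflect_jac {d : ℕ} (h4 : d % 4 = 3) (g : ℕ → ℝ) :
    ∑ j ∈ range d, (jacobiSym j d : ℝ) * g (d - j) = -∑ j ∈ range d, (jacobiSym j d : ℝ) * g j := by
  have h0 : jacobiSym ((0 : ℕ) : ℤ) d = 0 := jacobi_zero (by omega)
  obtain ⟨e, rfl⟩ : ∃ e, d = e + 1 := ⟨d - 1, by omega⟩
  rw [Finset.sum_range_succ', Finset.sum_range_succ' (fun j => (jacobiSym j (e + 1) : ℝ) * g j), h0]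
  simp only [Int.cast_zero, zero_mul, add_zero]
  rw [← Finset.sum_range_reflect, ← Finset.sum_neg_distrib]
  apply Finset.sum_congr rfl
  intro j hj
  have hj' := Finset.mem_range.mp hj
  have e1 : e - 1 - j + 1 = e + 1 - (j + 1) := by omega
  rw [e1, jacobi_sub' h4 (by omega)]
  have e2 : e + 1 - (e + 1 - (j + 1)) = j + 1 := by omega
  rw [e2]
  push_cast
  ring

lemma summable_As (d j : ℕ) (_hj : 0 < j) (hd : 0 < d) (s : ℝ) (hs : 1 < s) :
    Summable (fun m : ℕ => ((j + d * m : ℕ) : ℝ) ^ (-s)) := by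
  have h := Real.summable_nat_rpow.mpr (by linarith : -s < -1)
  have hinj : Function.Injective (fun m : ℕ => j + d * m) := by
    intro a b hab
    have : d * a = d * b := by
      have : j + d * a = j + d * b := hab
      omega
    exact Nat.eq_of_mul_eq_mul_left hd this
  exact h.comp_injective hinj

lemma two_F_eq (d : ℕ) (h4 : d % 4 = 3) (s : ℝ) (hs : 1 < s) :
    2 * ∑' n : ℕ, (jacobiSym n d : ℝ) * (n : ℝ) ^ (-s) =
      ∑ j ∈ range d, (jacobiSym j d : ℝ) * Bs d j s := by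
  have hd : 0 < d := by omega
  have : NeZero d := ⟨hd.ne'⟩
  have hsum : Summable (fun n : ℕ => (jacobiSym n d : ℝ) * (n : ℝ) ^ (-s)) :=
    (summable_fs d s hs).of_norm
  have h0 : jacobiSym ((0 : ℕ) : ℤ) d = 0 := jacobi_zero (by omega)
  have h1 : ∑' n : ℕ, (jacobiSym n d : ℝ) * (n : ℝ) ^ (-s) =
      ∑ j ∈ range d, (jacobiSym j d : ℝ) * ∑' m : ℕ, ((j + d * m : ℕ) : ℝ) ^ (-s) := by
    rw [Nat.sumByResidueClasses hsum d]
    have e1 : ∀ F : ℕ → ℝ, ∑ x ∈ range d, F x = ∑ x : ZMod d, F x.val := by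
      intro F
      rw [← Fin.sum_univ_eq_sum_range]
      rcases d with _ | d
      · omega
      · rfl
    rw [e1]
    apply Finset.sum_congr rfl
    intro j _
    rw [← tsum_mul_left]
    apply tsum_congr
    intro m
    rw [jacobi_add_mul]
  have h2 := sum_reflect_jac h4 (fun j => ∑' m : ℕ, ((j + d * m : ℕ) : ℝ) ^ (-s))
  have h3 : ∑ j ∈ range d, (jacobiSym j d : ℝ) * Bs d j s =
      ∑ j ∈ range d, (jacobiSym j d : ℝ) * (∑' m : ℕ, ((j + d * m : ℕ) : ℝ) ^ (-s)) -
      ∑ j ∈ range d, (jacobiSym j d : ℝ) * (∑' m : ℕ, ((d - j + d * m : ℕ) : ℝ) ^ (-s)) := by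
    rw [← Finset.sum_sub_distrib]
    apply Finset.sum_congr rfl
    intro j hj
    rcases Nat.eq_zero_or_pos j with rfl | hj0
    · rw [h0]; simp
    · have hjd := Finset.mem_range.mp hj
      rw [Bs, (summable_As d j hj0 hd s hs).tsum_sub (summable_As d (d - j) (by omega) hd s hs)]
      ring
  rw [h3, h2, h1]
  ring

lemma sum_Bs_nonneg (d : ℕ) (h4 : d % 4 = 3) :
    0 ≤ ∑ j ∈ range d, (jacobiSym j d : ℝ) * Bs d j 1 := by
  have h0 : jacobiSym ((0 : ℕ) : ℤ) d = 0 := jacobi_zero (by omega)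
  have hlim : Tendsto (fun s => ∑ j ∈ range d, (jacobiSym j d : ℝ) * Bs d j s) (𝓝[>] 1)
      (𝓝 (∑ j ∈ range d, (jacobiSym j d : ℝ) * Bs d j 1)) := by
    apply tendsto_finsetSum
    intro j hj
    rcases Nat.eq_zero_or_pos j with rfl | hj0
    · rw [h0]; simp
    · exact (tendsto_Bs d j hj0 (Finset.mem_range.mp hj)).const_mul _
  apply ge_of_tendsto hlim
  filter_upwards [self_mem_nhdsWithin] with s hs
  rw [← two_F_eq d h4 s hs]
  have := tsum_fs_nonneg d s hs
  linarith

lemma Bs_one (d j : ℕ) (hj : 0 < j) (hjd : j < d) :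
    ((Bs d j 1 : ℝ) : ℂ) = (π / d : ℂ) * Complex.cot (π * (j / d : ℂ)) := by
  have hd : (0 : ℝ) < d := by exact_mod_cast (by omega : 0 < d)
  have hdC : (d : ℂ) ≠ 0 := by exact_mod_cast hd.ne'
  have hjC : (j : ℂ) ≠ 0 := by exact_mod_cast hj.ne'
  have hint : ∀ n : ℤ, (j : ℂ) / d ≠ n := by
    intro n h
    have h1 : (j : ℂ) = n * d := by rw [div_eq_iff hdC] at h; exact h
    have h2 : (j : ℤ) = n * d := by exact_mod_cast h1
    have h3 : (d : ℤ) ∣ j := ⟨n, by rw [h2]; ring⟩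
    have h4 := Nat.le_of_dvd hj (by exact_mod_cast h3)
    omega
  have hx : ((j : ℂ) / d) ∈ Complex.integerComplement := by
    rw [Complex.mem_integerComplement_iff]
    rintro ⟨n, hn⟩
    exact hint n hn.symm
  have hcot := tendsto_logDeriv_euler_cot_sub hx
  -- summability of the series defining `Bs`
  have hsumR : Summable (fun m : ℕ =>
      (((j + d * m : ℕ) : ℝ) ^ (-(1 : ℝ)) - ((d - j + d * m : ℕ) : ℝ) ^ (-(1 : ℝ)))) := by
    have hbd : Summable (fun m : ℕ => (2 * d : ℝ) * (1 / ((m : ℝ) + 1) ^ 2)) := by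
      apply Summable.mul_left
      have := (summable_nat_add_iff 1).mpr (Real.summable_one_div_nat_pow.mpr (one_lt_two))
      simpa using this
    apply Summable.of_norm_bounded hbd
    intro m
    have hmd : m ≤ d * m := Nat.le_mul_of_pos_left m (by omega)
    have hx : (m : ℝ) + 1 ≤ ((j + d * m : ℕ) : ℝ) := by
      exact_mod_cast (by omega : m + 1 ≤ j + d * m)
    have hy : (m : ℝ) + 1 ≤ ((d - j + d * m : ℕ) : ℝ) := by
      exact_mod_cast (by omega : m + 1 ≤ d - j + d * m)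
    have hm0 : (0 : ℝ) ≤ m := Nat.cast_nonneg m
    have h := rpow_diff_bound (by linarith : (1 : ℝ) ≤ ((j + d * m : ℕ) : ℝ))
      (by linarith : (1 : ℝ) ≤ ((d - j + d * m : ℕ) : ℝ)) le_rfl (by norm_num)
    rw [Real.norm_eq_abs]
    refine h.trans ?_
    have h1 : |((d - j + d * m : ℕ) : ℝ) - ((j + d * m : ℕ) : ℝ)| ≤ d := by
      push_cast [Nat.cast_sub hjd.le]
      have : (j : ℝ) < d := by exact_mod_cast hjd
      have : (0 : ℝ) < j := by exact_mod_cast hj
      rw [abs_le]; constructor <;> linarith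
    have h2 : ((m : ℝ) + 1) ^ 2 ≤ ((j + d * m : ℕ) : ℝ) * ((d - j + d * m : ℕ) : ℝ) := by
      nlinarith
    have h3 : (0 : ℝ) < ((m : ℝ) + 1) ^ 2 := by positivity
    calc _ ≤ 2 * d / (((j + d * m : ℕ) : ℝ) * ((d - j + d * m : ℕ) : ℝ)) := by
          apply div_le_div_of_nonneg_right _ (by positivity)
          linarith
      _ ≤ 2 * d / ((m : ℝ) + 1) ^ 2 := by
          apply div_le_div_of_nonneg_left (by positivity) h3 h2
      _ = _ := by ring
  have hB := hsumR.hasSum.tendsto_sum_nat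
  have hBC : Tendsto (fun M : ℕ => ((∑ m ∈ range M,
      (((j + d * m : ℕ) : ℝ) ^ (-(1 : ℝ)) - ((d - j + d * m : ℕ) : ℝ) ^ (-(1 : ℝ))) : ℝ) : ℂ))
      atTop (𝓝 ((Bs d j 1 : ℝ) : ℂ)) := (Complex.continuous_ofReal.tendsto _).comp hB
  -- partial sums in terms of cotangent terms
  set x : ℂ := (j : ℂ) / d with hxdef
  have hpart : ∀ M : ℕ, ((∑ m ∈ range M,
      (((j + d * m : ℕ) : ℝ) ^ (-(1 : ℝ)) - ((d - j + d * m : ℕ) : ℝ) ^ (-(1 : ℝ))) : ℝ) : ℂ) =
      (1 / d : ℂ) * (1 / x - 1 / (x + M) + ∑ m ∈ range M, cotTerm x m) := by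
    intro M
    induction M with
    | zero => simp
    | succ M ih =>
      rw [Finset.sum_range_succ, Finset.sum_range_succ, Complex.ofReal_add, ih]
      have h1 : (j : ℂ) + d * M ≠ 0 := by
        exact_mod_cast (by omega : j + d * M ≠ 0)
      have h2 : (j : ℂ) + d * (M + 1) ≠ 0 := by
        have : 0 < j + d * (M + 1) := by positivity
        exact_mod_cast this.ne'
      have h3 : (d : ℂ) * (M + 1) - j ≠ 0 := by
        intro h
        have h4 : (d : ℂ) * (M + 1) = j := by linear_combination h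
        have h5 : d * (M + 1) = j := by exact_mod_cast h4
        nlinarith
      have h3' : (j : ℂ) - d * (M + 1) ≠ 0 := by
        intro h; apply h3; linear_combination -h
      have e1 : ((((j + d * M : ℕ) : ℝ) ^ (-(1 : ℝ)) -
          ((d - j + d * M : ℕ) : ℝ) ^ (-(1 : ℝ)) : ℝ) : ℂ) =
          1 / ((j : ℂ) + d * M) - 1 / ((d : ℂ) * (M + 1) - j) := by
        rw [Real.rpow_neg_one, Real.rpow_neg_one]
        push_cast [Nat.cast_sub hjd.le]
        rw [one_div, one_div]
        congr 2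
        ring
      have e2 : 1 / (x + M) = d / ((j : ℂ) + d * M) := by
        rw [hxdef]; field_simp
      have e3 : 1 / (x + ((M + 1 : ℕ) : ℂ)) = d / ((j : ℂ) + d * (M + 1)) := by
        rw [hxdef]; push_cast; field_simp
      have e4 : cotTerm x M = d / ((j : ℂ) - d * (M + 1)) + d / ((j : ℂ) + d * (M + 1)) := by
        rw [cotTerm, hxdef]
        congr 1
        · rw [div_sub' hdC, one_div_div]
        · rw [div_add' _ _ _ hdC, one_div_div, mul_comm (_ + 1 : ℂ)]
      rw [e1, e2, e3, e4]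
      have e5 : (d : ℂ) / ((j : ℂ) - d * (M + 1)) = -(d / ((d : ℂ) * (M + 1) - j)) := by
        rw [← neg_sub ((d : ℂ) * (M + 1)) j, div_neg]
      rw [e5]
      field_simp
      ring
  simp_rw [hpart] at hBC
  have hzero : Tendsto (fun M : ℕ => 1 / (x + (M : ℂ))) atTop (𝓝 0) := by
    have h1 : Tendsto (fun M : ℕ => (d : ℝ) / ((j : ℝ) + d * M)) atTop (𝓝 0) := by
      apply Tendsto.div_atTop tendsto_const_nhds
      apply tendsto_atTop_add_const_left
      exact tendsto_natCast_atTop_atTop.const_mul_atTop hd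
    have h2 := (Complex.continuous_ofReal.tendsto _).comp h1
    rw [Complex.ofReal_zero] at h2
    refine h2.congr fun M => ?_
    simp only [Function.comp]
    push_cast
    rw [hxdef]
    have h1 : (j : ℂ) + d * M ≠ 0 := by
      exact_mod_cast (by omega : j + d * M ≠ 0)
    field_simp
  have hlim : Tendsto (fun M : ℕ => (1 / d : ℂ) *
      (1 / x - 1 / (x + M) + ∑ m ∈ range M, cotTerm x m)) atTop
      (𝓝 ((1 / d : ℂ) * (1 / x - 0 + (π * Complex.cot (π * x) - 1 / x)))) :=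
    ((tendsto_const_nhds.sub hzero).add hcot).const_mul _
  rw [tendsto_nhds_unique hBC hlim]
  ring


/-- `∑ n z^n = d / (z - 1)` for a nontrivial `d`-th root of unity. -/
lemma sum_mul_pow (d : ℕ) (z : ℂ) (hz : z ^ d = 1) (hz1 : z ≠ 1) :
    ∑ n ∈ range d, (n : ℂ) * z ^ n = d / (z - 1) := by
  have h1 : z - 1 ≠ 0 := sub_ne_zero.mpr hz1
  have key : ∀ N : ℕ, (z - 1) * ∑ n ∈ range N, (n : ℂ) * z ^ n =
      N * z ^ N - z * ∑ n ∈ range N, z ^ n := by
    intro N
    induction N with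
    | zero => simp
    | succ N ih =>
      rw [Finset.sum_range_succ, Finset.sum_range_succ, mul_add, ih]
      push_cast
      ring
  have h2 := key d
  have h3 : ∑ n ∈ range d, z ^ n = 0 := by
    rw [geom_sum_eq hz1, hz]; simp
  rw [h3, hz] at h2
  rw [eq_div_iff h1]
  linear_combination h2

lemma cot_sum (d : ℕ) (h4 : d % 4 = 3) (hsq : Squarefree d) :
    ∑ j ∈ range d, (jacobiSym j d : ℂ) * Complex.cot (π * (j / d : ℂ)) =
      -(2 / (Real.sqrt d : ℂ)) * ∑ n ∈ range d, (n : ℂ) * (jacobiSym n d : ℂ) := by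
  have hd : 0 < d := by omega
  have hdC : (d : ℂ) ≠ 0 := by exact_mod_cast hd.ne'
  have h0 : jacobiSym ((0 : ℕ) : ℤ) d = 0 := jacobi_zero (by omega)
  have hgs := fun k => gs_eq d (by omega) hsq k
  have heps : eps d = I := by rw [eps, if_neg (by omega)]
  have hterm : ∀ j ∈ range d, (jacobiSym j d : ℂ) * Complex.cot (π * (j / d : ℂ)) =
      I * (jacobiSym j d : ℂ) + (2 * I / d) * ((jacobiSym j d : ℂ) *
        ∑ n ∈ range d, (n : ℂ) * cexp (2 * π * I * (j * n / d))) := by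
    intro j hj
    rcases Nat.eq_zero_or_pos j with rfl | hj0
    · rw [h0]; simp
    · have hjd := Finset.mem_range.mp hj
      set z : ℂ := cexp (2 * π * I * (j / d)) with hz
      have hzd : z ^ d = 1 := by
        rw [hz, ← Complex.exp_nat_mul]
        have : (d : ℂ) * (2 * π * I * (j / d)) = (j : ℕ) * (2 * π * I) := by
          field_simp
        rw [this, Complex.exp_nat_mul_two_pi_mul_I]
      have hz1 : z ≠ 1 := by
        rw [hz, Ne, Complex.exp_eq_one_iff]
        rintro ⟨n, hn⟩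
        have hpi : (2 * π * I : ℂ) ≠ 0 := by
          simp [Real.pi_ne_zero]
        have h1 : (j : ℂ) / d = n := by
          apply mul_left_cancel₀ hpi
          rw [hn]; ring
        have h2 : (j : ℂ) = n * d := by rw [div_eq_iff hdC] at h1; exact h1
        have h3 : (j : ℤ) = n * d := by exact_mod_cast h2
        have h5 : (d : ℤ) ∣ j := ⟨n, by rw [h3]; ring⟩
        have h6 := Nat.le_of_dvd hj0 (by exact_mod_cast h5)
        omega
      have hpow : ∀ n : ℕ, cexp (2 * π * I * (j * n / d)) = z ^ n := by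
        intro n
        rw [hz, ← Complex.exp_nat_mul]
        congr 1
        ring
      simp_rw [hpow]
      rw [sum_mul_pow d z hzd hz1, Complex.cot_pi_eq_exp_ratio, ← hz]
      have h1 : z - 1 ≠ 0 := sub_ne_zero.mpr hz1
      have h2 : 1 - z ≠ 0 := by
        intro h; apply h1; linear_combination -h
      have hI : (I : ℂ) ≠ 0 := I_ne_zero
      have e1 : (z + 1) / (I * (1 - z)) = I + 2 * I / (z - 1) := by
        rw [div_eq_iff (mul_ne_zero hI h2)]
        have : (I + 2 * I / (z - 1)) * (I * (1 - z)) =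
          (I * I) * (1 - z) + (I * I) * (2 * ((1 - z) / (z - 1))) := by ring
        rw [this, I_mul_I]
        have h3 : (1 - z) / (z - 1) = -1 := by
          rw [div_eq_iff h1]; ring
        rw [h3]; ring
      rw [e1]
      field_simp
  rw [Finset.sum_congr rfl hterm, Finset.sum_add_distrib, ← Finset.mul_sum, ← Finset.mul_sum]
  have hzero : ∑ j ∈ range d, (jacobiSym j d : ℂ) = 0 := by
    have h1 := hgs 0
    rw [jacobi_zero (by omega : 1 < d)] at h1
    rw [gs] at h1
    simpa using h1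
  rw [hzero, mul_zero, zero_add]
  have hswap : ∑ j ∈ range d, ((jacobiSym j d : ℂ) *
        ∑ n ∈ range d, (n : ℂ) * cexp (2 * π * I * (j * n / d))) =
      ∑ n ∈ range d, (n : ℂ) * gs d n := by
    simp_rw [gs, Finset.mul_sum]
    rw [Finset.sum_comm]
    apply Finset.sum_congr rfl
    intro n _
    apply Finset.sum_congr rfl
    intro j _
    ring
  rw [hswap]
  simp_rw [hgs, heps]
  have hs : (Real.sqrt d : ℂ) ≠ 0 := by
    have : (0 : ℝ) < d := by exact_mod_cast hd
    exact_mod_cast (Real.sqrt_pos.mpr this).ne'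
  have hsq2 : (Real.sqrt d : ℂ) * (Real.sqrt d : ℂ) = d := by
    rw [← ofReal_mul, Real.mul_self_sqrt (Nat.cast_nonneg d)]; simp
  rw [Finset.mul_sum, Finset.mul_sum]
  apply Finset.sum_congr rfl
  intro n _
  have e : (2 * I / d) * ((n : ℂ) * ((jacobiSym n d : ℂ) * I * (Real.sqrt d : ℂ))) =
    (I * I) * (2 * (Real.sqrt d : ℂ) / d) * (n * (jacobiSym n d : ℂ)) := by ring
  rw [e, I_mul_I]
  have e2 : 2 * (Real.sqrt d : ℂ) / d = 2 / (Real.sqrt d : ℂ) := by
    rw [← hsq2]; field_simp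
  rw [e2]
  ring

lemma T_nonpos (d : ℕ) (h4 : d % 4 = 3) (hsq : Squarefree d) :
    ∑ n ∈ range d, (n : ℤ) * jacobiSym n d ≤ 0 := by
  have hd : 0 < d := by omega
  have hdR : (0 : ℝ) < d := by exact_mod_cast hd
  have h0 : jacobiSym ((0 : ℕ) : ℤ) d = 0 := jacobi_zero (by omega)
  have h1 := sum_Bs_nonneg d h4
  have h2 : ((∑ j ∈ range d, (jacobiSym j d : ℝ) * Bs d j 1 : ℝ) : ℂ) =
      ((-(2 * π / (d * Real.sqrt d)) * ((∑ n ∈ range d, (n : ℤ) * jacobiSym n d : ℤ) : ℝ) : ℝ) : ℂ)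
      := by
    push_cast
    have h3 : ∀ j ∈ range d, (jacobiSym j d : ℂ) * ((Bs d j 1 : ℝ) : ℂ) =
        (π / d : ℂ) * ((jacobiSym j d : ℂ) * Complex.cot (π * (j / d : ℂ))) := by
      intro j hj
      rcases Nat.eq_zero_or_pos j with rfl | hj0
      · rw [h0]; simp
      · rw [Bs_one d j hj0 (Finset.mem_range.mp hj)]; ring
    rw [Finset.sum_congr rfl h3, ← Finset.mul_sum, cot_sum d h4 hsq]
    ring
  have h5 := Complex.ofReal_injective h2
  rw [h5] at h1
  have hs : 0 < Real.sqrt d := Real.sqrt_pos.mpr hdR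
  have h6 : 0 < 2 * π / (d * Real.sqrt d) := by positivity
  by_contra hcon
  have h7 : (0 : ℝ) < ((∑ n ∈ range d, (n : ℤ) * jacobiSym n d : ℤ) : ℝ) := by
    exact_mod_cast not_le.mp hcon
  have := mul_pos h6 h7
  linarith

/-- Half sum of the Jacobi symbol. -/
def halfSum (d : ℕ) : ℤ := ∑ n ∈ range ((d + 1) / 2), jacobiSym n d

lemma sum_range_odd {M : Type*} [AddCommMonoid M] (f : ℕ → M) (h : ℕ) :
    ∑ n ∈ range (2 * h + 1), f n = ∑ i ∈ range (h + 1), f (2 * i) + ∑ i ∈ range h, f (2 * i + 1) := by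
  induction h with
  | zero => simp
  | succ h ih =>
    rw [show 2 * (h + 1) + 1 = (2 * h + 1) + 1 + 1 by ring, Finset.sum_range_succ,
      Finset.sum_range_succ, ih, Finset.sum_range_succ (fun i => f (2 * i)) (h + 1),
      Finset.sum_range_succ (fun i => f (2 * i + 1)) h]
    rw [show 2 * h + 1 + 1 = 2 * (h + 1) by ring]
    abel

lemma T_eq (d : ℕ) (h4 : d % 4 = 3) :
    (d : ℤ) * halfSum d = (jacobiSym 2 d - 2) * ∑ n ∈ range d, (n : ℤ) * jacobiSym n d := by
  obtain ⟨h, rfl⟩ : ∃ h, d = 2 * h + 1 := ⟨d / 2, by omega⟩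
  set d := 2 * h + 1 with hd
  have h0 : jacobiSym ((0 : ℕ) : ℤ) d = 0 := jacobi_zero (by omega)
  set S1 : ℤ := ∑ n ∈ range (h + 1), (n : ℤ) * jacobiSym n d with hS1
  set T : ℤ := ∑ n ∈ range d, (n : ℤ) * jacobiSym n d with hT
  set H : ℤ := ∑ n ∈ range (h + 1), jacobiSym n d with hH
  have hhalf : halfSum d = H := by
    rw [halfSum, show (d + 1) / 2 = h + 1 by omega]
  have hS1' : S1 = ∑ j ∈ range h, ((j : ℤ) + 1) * jacobiSym ((j + 1 : ℕ) : ℤ) d := by
    rw [hS1, Finset.sum_range_succ', h0]; simp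
  have hH' : H = ∑ j ∈ range h, jacobiSym ((j + 1 : ℕ) : ℤ) d := by
    rw [hH, Finset.sum_range_succ', h0]; simp
  -- first relation
  have hT1 : T = 2 * S1 - d * H := by
    have e1 : T = S1 + ∑ i ∈ range h, (((h + 1 + i : ℕ) : ℤ)) * jacobiSym ((h + 1 + i : ℕ) : ℤ) d := by
      rw [hT, hS1, hd, show 2 * h + 1 = (h + 1) + h by ring, Finset.sum_range_add]
    rw [e1, ← Finset.sum_range_reflect]
    have e2 : ∀ j ∈ range h, (((h + 1 + (h - 1 - j) : ℕ) : ℤ)) *
        jacobiSym ((h + 1 + (h - 1 - j) : ℕ) : ℤ) d =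
        ((j : ℤ) + 1) * jacobiSym ((j + 1 : ℕ) : ℤ) d - d * jacobiSym ((j + 1 : ℕ) : ℤ) d := by
      intro j hj
      have hj' := Finset.mem_range.mp hj
      have e3 : h + 1 + (h - 1 - j) = d - (j + 1) := by omega
      rw [e3, jacobi_sub' h4 (by omega), Nat.cast_sub (by omega)]
      push_cast
      ring
    rw [Finset.sum_congr rfl e2, Finset.sum_sub_distrib, ← Finset.mul_sum, ← hS1', ← hH']
    ring
  have hT2 : T = jacobiSym 2 d * (4 * S1 - d * H) := by
    rw [hT, hd, sum_range_odd]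
    have e1 : ∑ i ∈ range (h + 1), (((2 * i : ℕ) : ℤ)) * jacobiSym ((2 * i : ℕ) : ℤ) (2 * h + 1) =
        2 * jacobiSym 2 d * S1 := by
      rw [hS1, Finset.mul_sum]
      apply Finset.sum_congr rfl
      intro i _
      push_cast
      rw [jacobiSym.mul_left]
      ring
    rw [e1, ← Finset.sum_range_reflect]
    have e2 : ∀ j ∈ range h, (((2 * (h - 1 - j) + 1 : ℕ) : ℤ)) *
        jacobiSym ((2 * (h - 1 - j) + 1 : ℕ) : ℤ) (2 * h + 1) =
        jacobiSym 2 d * (2 * (((j : ℤ) + 1) * jacobiSym ((j + 1 : ℕ) : ℤ) d) -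
          d * jacobiSym ((j + 1 : ℕ) : ℤ) d) := by
      intro j hj
      have hj' := Finset.mem_range.mp hj
      have e3 : 2 * (h - 1 - j) + 1 = d - 2 * (j + 1) := by omega
      rw [e3, jacobi_sub' h4 (by omega), Nat.cast_sub (by omega)]
      push_cast
      rw [jacobiSym.mul_left]
      ring
    rw [Finset.sum_congr rfl e2, ← Finset.mul_sum, Finset.sum_sub_distrib, ← Finset.mul_sum,
      ← Finset.mul_sum, ← hS1', ← hH']
    ring
  have hc : jacobiSym 2 d * jacobiSym 2 d = 1 := by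
    have : Int.gcd 2 (d : ℕ) = 1 := by
      rw [show (2 : ℤ) = ((2 : ℕ) : ℤ) by norm_num, Int.gcd_natCast_natCast]
      exact (Nat.coprime_two_left).mpr (Nat.odd_iff.mpr (by omega))
    rcases jacobiSym.eq_one_or_neg_one this with h | h <;> rw [h] <;> norm_num
  rw [hhalf]
  -- `c T = 2 T + d H`
  have h3 : jacobiSym 2 d * T = 2 * T + d * H := by
    have : jacobiSym 2 d * T = (jacobiSym 2 d * jacobiSym 2 d) * (4 * S1 - d * H) := by
      calc jacobiSym 2 d * T = jacobiSym 2 d * (jacobiSym 2 d * (4 * S1 - d * H)) := by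
            rw [← hT2]
        _ = _ := by ring
    rw [this, hc]
    linarith
  linarith

lemma halfSum_nonneg_of_squarefree (d : ℕ) (h4 : d % 4 = 3) (hsq : Squarefree d) :
    0 ≤ halfSum d := by
  have h1 := T_nonpos d h4 hsq
  have h2 := T_eq d h4
  have h3 : jacobiSym 2 d - 2 ≤ 0 := by
    rcases jacobiSym.trichotomy 2 d with h | h | h <;> rw [h] <;> norm_num
  have h4' : 0 ≤ (d : ℤ) * halfSum d := by
    rw [h2]; exact mul_nonneg_of_nonpos_of_nonpos h3 h1
  have hd : (0 : ℤ) < d := by exact_mod_cast (by omega : 0 < d)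
  exact nonneg_of_mul_nonneg_right h4' hd

lemma sum_jacobi_zero (d : ℕ) (h4 : d % 4 = 3) : ∑ n ∈ range d, jacobiSym n d = 0 := by
  have h := sum_reflect_jac h4 (fun _ => 1)
  have h2 : (∑ n ∈ range d, (jacobiSym n d : ℝ)) = 0 := by
    simp only [mul_one] at h
    linarith
  exact_mod_cast h2

lemma sum_periodic (f : ℕ → ℤ) (m : ℕ) (hf : ∀ n, f (m + n) = f n) (h0 : ∑ n ∈ range m, f n = 0)
    (a b : ℕ) : ∑ n ∈ range (m * a + b), f n = ∑ n ∈ range b, f n := by
  induction a with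
  | zero => simp
  | succ a ih =>
    rw [show m * (a + 1) + b = m + (m * a + b) by ring, Finset.sum_range_add, h0, zero_add]
    simp_rw [hf]
    exact ih

lemma halfSum_step (q m : ℕ) (hq : q.Prime) (h4 : (q * q * m) % 4 = 3) :
    m % 4 = 3 ∧ halfSum (q * q * m) = (1 - jacobiSym q m) * halfSum m := by
  have hodd : Odd (q * q * m) := Nat.odd_iff.mpr (by omega)
  have hq2 : q % 2 = 1 := Nat.odd_iff.mp (Nat.odd_mul.mp (Nat.odd_mul.mp hodd).1).1
  have hqq : (q * q) % 8 = 1 := by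
    have : q % 8 = 1 ∨ q % 8 = 3 ∨ q % 8 = 5 ∨ q % 8 = 7 := by omega
    rcases this with h | h | h | h <;> rw [Nat.mul_mod, h]
  have hm4 : m % 4 = 3 := by
    have h1 : (q * q * m) % 4 = ((q * q) % 4 * (m % 4)) % 4 := Nat.mul_mod _ _ _
    rw [show (q * q) % 4 = 1 by omega] at h1
    omega
  refine ⟨hm4, ?_⟩
  obtain ⟨a, ha⟩ : ∃ a, q * q = 2 * a + 1 := ⟨q * q / 2, by omega⟩
  obtain ⟨h, hh⟩ : ∃ h, m = 2 * h + 1 := ⟨m / 2, by omega⟩
  have hm0 : m ≠ 0 := by omega
  have hrange : (q * q * m + 1) / 2 = m * a + (m + 1) / 2 := by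
    rw [ha, show (2 * a + 1) * m + 1 = 2 * (m * a) + (m + 1) by ring]
    omega
  have hterm : ∀ n : ℕ, jacobiSym n (q * q * m) = jacobiSym n m - if q ∣ n then jacobiSym n m else 0 := by
    intro n
    rw [jacobiSym.mul_right' _ (by have := hq.pos; positivity) hm0,
      jacobiSym.mul_right' _ hq.ne_zero hq.ne_zero]
    by_cases hqn : q ∣ n
    · have : jacobiSym n q = 0 := by
        rw [jacobiSym.eq_zero_iff]
        refine ⟨hq.ne_zero, ?_⟩
        rw [Int.gcd_natCast_natCast, Nat.gcd_eq_right hqn]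
        exact hq.ne_one
      rw [this, if_pos hqn]; ring
    · have hg : Int.gcd (n : ℤ) (q : ℕ) = 1 := by
        rw [Int.gcd_natCast_natCast]
        exact ((Nat.Prime.coprime_iff_not_dvd hq).mpr hqn).symm
      rw [if_neg hqn]
      rcases jacobiSym.eq_one_or_neg_one hg with h | h <;> rw [h] <;> ring
  have hper : ∀ n, jacobiSym ((m + n : ℕ) : ℤ) m = jacobiSym (n : ℤ) m := by
    intro n
    have := jacobi_add_mul (d := m) n 1
    rw [mul_one, add_comm] at this
    exact this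
  have h1 : ∑ n ∈ range ((q * q * m + 1) / 2), jacobiSym n m = halfSum m := by
    rw [hrange, sum_periodic (fun n => jacobiSym n m) m hper (sum_jacobi_zero m hm4)]
    rfl
  have h2 : ∑ n ∈ range ((q * q * m + 1) / 2), (if q ∣ n then jacobiSym n m else 0) =
      jacobiSym q m * halfSum m := by
    rw [← Finset.sum_filter]
    obtain ⟨b, hb⟩ : ∃ b, q = 2 * b + 1 := ⟨q / 2, by omega⟩
    have hr2 : (q * m + 1) / 2 = m * b + (m + 1) / 2 := by
      rw [hb, show (2 * b + 1) * m + 1 = 2 * (m * b) + (m + 1) by ring]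
      omega
    have hqm : (q * m) % 2 = 1 :=
      Nat.odd_iff.mp (Odd.mul (Nat.odd_iff.mpr hq2) (Nat.odd_iff.mpr (by omega)))
    have himg : (range ((q * q * m + 1) / 2)).filter (fun n => q ∣ n) =
        (range ((q * m + 1) / 2)).image (fun j => q * j) := by
      ext n
      simp only [Finset.mem_filter, Finset.mem_range, Finset.mem_image]
      constructor
      · rintro ⟨hn, j, rfl⟩
        refine ⟨j, ?_, rfl⟩
        have h3 : 2 * (q * j) < q * q * m + 1 := by omega
        have h5 : q * (2 * j) ≤ q * (q * m) := by nlinarith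
        have h6 := Nat.le_of_mul_le_mul_left h5 hq.pos
        omega
      · rintro ⟨j, hj, rfl⟩
        refine ⟨?_, dvd_mul_right _ _⟩
        have h3 : 2 * j ≤ q * m := by omega
        have h5 : q * (2 * j) ≤ q * (q * m) := Nat.mul_le_mul_left _ h3
        have h6 : 2 * (q * j) ≤ q * q * m := by nlinarith
        have h7 := Nat.odd_iff.mp hodd
        omega
    rw [himg, Finset.sum_image (by
      intro a _ b _ hab
      exact Nat.eq_of_mul_eq_mul_left hq.pos hab)]
    have h3 : ∀ j ∈ range ((q * m + 1) / 2), jacobiSym ((q * j : ℕ) : ℤ) m =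
        jacobiSym q m * jacobiSym j m := by
      intro j _
      push_cast
      rw [jacobiSym.mul_left]
    rw [Finset.sum_congr rfl h3, ← Finset.mul_sum, hr2,
      sum_periodic (fun n => jacobiSym n m) m hper (sum_jacobi_zero m hm4)]
    rfl
  rw [halfSum, Finset.sum_congr rfl (fun n _ => hterm n), Finset.sum_sub_distrib, h1, h2]
  ring

theorem halfSum_nonneg (d : ℕ) (h4 : d % 4 = 3) : 0 ≤ halfSum d := by
  induction d using Nat.strong_induction_on with
  | _ d ih =>
    by_cases hsq : Squarefree d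
    · exact halfSum_nonneg_of_squarefree d h4 hsq
    · rw [Nat.squarefree_iff_prime_squarefree] at hsq
      push Not at hsq
      obtain ⟨q, hq, m, rfl⟩ := hsq
      obtain ⟨hm4, hstep⟩ := halfSum_step q m hq h4
      rw [hstep]
      have hlt : m < q * q * m := by
        have h2 := hq.two_le
        have hm : 0 < m := by omega
        have h3 : 4 ≤ q * q := by nlinarith
        have h5 : 4 * m ≤ q * q * m := Nat.mul_le_mul_right m h3
        omega
      apply mul_nonneg _ (ih m hlt hm4)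
      rcases jacobiSym.trichotomy q m with h | h | h <;> rw [h] <;> norm_num

end Pool.Agent.Lib.MP_54f1ce_nt
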